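import Pool.Agent.Helper25.PCap.GoalsTools

/-! # Packet E: monotone iteration -/

set_option autoImplicit false

open MeasureTheory Set Filter Topology
open scoped ContDiff Real

noncomputable section

namespace Pool.Agent.Helper77.PCap

open Pool.Agent.Helper25.PCap

theorem fderiv_bound {v : ℝ × ℝ → ℝ} {B : ℝ} (h1 : ∀ x, |D1 v x| ≤ B) (h2 : ∀ x, |D2 v x| ≤ B)
    (x : ℝ × ℝ) : ‖fderiv ℝ v x‖ ≤ 2 * B := by
  have hB : 0 ≤ B := (abs_nonneg _).trans (h1 x)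
  refine ContinuousLinearMap.opNorm_le_bound _ (by positivity) fun w => ?_
  have hw : w = w.1 • ((1, 0) : ℝ × ℝ) + w.2 • ((0, 1) : ℝ × ℝ) := by
    ext <;> simp
  have e1 : fderiv ℝ v x w = w.1 * D1 v x + w.2 * D2 v x := by
    conv_lhs => rw [hw]
    rw [map_add, map_smul, map_smul, smul_eq_mul, smul_eq_mul]
    rfl
  rw [e1, Real.norm_eq_abs]
  have n1 : |w.1| ≤ ‖w‖ := norm_fst_le w
  have n2 : |w.2| ≤ ‖w‖ := norm_snd_le w
  calc |w.1 * D1 v x + w.2 * D2 v x| ≤ |w.1 * D1 v x| + |w.2 * D2 v x| := abs_add_le _ _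
    _ = |w.1| * |D1 v x| + |w.2| * |D2 v x| := by rw [abs_mul, abs_mul]
    _ ≤ ‖w‖ * B + ‖w‖ * B := by
        gcongr
        · exact h1 x
        · exact h2 x
    _ = 2 * B * ‖w‖ := by ring

theorem comp_bound {F : (ℝ × ℝ) × ℝ → ℝ} (hF : ContDiff ℝ 1 F) {K B : ℝ} {Z : ℝ × ℝ → ℝ}
    (hZ : ContDiff ℝ 1 Z) (hK : ∀ x, ‖fderiv ℝ F (x, Z x)‖ ≤ K) (hB : ∀ x, ‖fderiv ℝ Z x‖ ≤ B) :
    ContDiff ℝ 1 (fun x => F (x, Z x)) ∧ ∀ x, ‖fderiv ℝ (fun x => F (x, Z x)) x‖ ≤ K * max 1 B := by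
  refine ⟨hF.comp (contDiff_id.prodMk hZ), fun x => ?_⟩
  have h1 : HasFDerivAt (fun x => (x, Z x)) ((ContinuousLinearMap.id ℝ (ℝ × ℝ)).prod
      (fderiv ℝ Z x)) x :=
    (hasFDerivAt_id x).prodMk ((hZ.differentiable (by norm_num)) x).hasFDerivAt
  have h2 : HasFDerivAt F (fderiv ℝ F (x, Z x)) (x, Z x) :=
    ((hF.differentiable (by norm_num)) _).hasFDerivAt
  have h3 := (h2.comp x h1).fderiv
  have h4 : fderiv ℝ (fun x => F (x, Z x)) x = (fderiv ℝ F (x, Z x)).comp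
      ((ContinuousLinearMap.id ℝ (ℝ × ℝ)).prod (fderiv ℝ Z x)) := h3
  rw [h4]
  refine (ContinuousLinearMap.opNorm_comp_le _ _).trans ?_
  have hKn : 0 ≤ K := (norm_nonneg _).trans (hK x)
  refine mul_le_mul (hK x) ?_ (norm_nonneg _) hKn
  rw [ContinuousLinearMap.opNorm_prod, Prod.norm_def]
  refine max_le_max ?_ (hB x)
  exact ContinuousLinearMap.norm_id_le

theorem pkE (ha : GRQa) (hb : GRQb) (hc : GRQc) : GE := by
  intro κ q K hκ0 hκ1 hq f hf hK hmono hf0 hf1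
  obtain ⟨K1, hK1⟩ := ha κ q hκ0 hκ1 hq
  have hb' := hb κ q hκ0 hκ1 hq
  obtain ⟨-, c2, c3, -, c5, -, -⟩ := hc κ q hκ0 hκ1 hq
  set F : (ℝ × ℝ) × ℝ → ℝ := fun p => f p.1 p.2 with hFdef
  -- bounds for a function with values in [0,1]
  have hg0 : ∀ {Z : ℝ × ℝ → ℝ}, (∀ x, 0 ≤ Z x ∧ Z x ≤ 1) → ∀ x, 0 ≤ f x (Z x) ∧ f x (Z x) ≤ q := by
    intro Z hZ x
    exact ⟨(hf0 x).trans (hmono x 0 _ le_rfl (hZ x).1 (hZ x).2),
      (hmono x _ 1 (hZ x).1 (hZ x).2 le_rfl).trans (hf1 x)⟩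
  have hgabs : ∀ {Z : ℝ × ℝ → ℝ}, (∀ x, 0 ≤ Z x ∧ Z x ≤ 1) → ∀ x, |f x (Z x)| ≤ q := by
    intro Z hZ x
    rw [abs_le]
    have := hg0 hZ x
    exact ⟨by linarith, this.2⟩
  have hgmeas : ∀ {Z : ℝ × ℝ → ℝ}, Measurable Z → Measurable (fun x => f x (Z x)) := by
    intro Z hZ
    exact hf.continuous.measurable.comp (measurable_id.prodMk hZ)
  -- the regularity step
  have hreg : ∀ {Z : ℝ × ℝ → ℝ}, (∀ x, 0 ≤ Z x ∧ Z x ≤ 1) → ContDiff ℝ 1 Z →
      (∃ B, ∀ x, ‖fderiv ℝ Z x‖ ≤ B) →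
      ContDiff ℝ 2 (Rq κ q (fun x => f x (Z x))) ∧
      ∀ x, LL κ (Rq κ q (fun x => f x (Z x))) x = q * Rq κ q (fun x => f x (Z x)) x - f x (Z x) := by
    rintro Z hZ hZ1 ⟨B, hB⟩
    obtain ⟨g1, g2⟩ := comp_bound hf hZ1 (fun x => hK x (Z x) (hZ x).1 (hZ x).2) hB
    refine hb' (fun x => f x (Z x)) (max q (K * max 1 B)) g1
      (fun x => (hgabs hZ x).trans (le_max_left _ _)) (fun x => (g2 x).trans (le_max_right _ _))
  -- the first order step
  have hreg1 : ∀ {Z : ℝ × ℝ → ℝ}, (∀ x, 0 ≤ Z x ∧ Z x ≤ 1) → Measurable Z →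
      ContDiff ℝ 1 (Rq κ q (fun x => f x (Z x))) ∧
      ∃ B, ∀ x, ‖fderiv ℝ (Rq κ q (fun x => f x (Z x))) x‖ ≤ B := by
    intro Z hZ hZm
    obtain ⟨g1, g2, g3, -⟩ := hK1 _ q (hgmeas hZm) (hgabs hZ)
    exact ⟨g1, _, fderiv_bound g2 g3⟩
  -- bounds
  have hbd : ∀ {Z : ℝ × ℝ → ℝ}, (∀ x, 0 ≤ Z x ∧ Z x ≤ 1) → Measurable Z →
      ∀ x, 0 ≤ Rq κ q (fun x => f x (Z x)) x ∧ Rq κ q (fun x => f x (Z x)) x ≤ 1 := by
    intro Z hZ hZm x
    have h0 := c2 0 x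
    have h1 := c2 q x
    constructor
    · have := c3 (fun _ => 0) (fun x => f x (Z x)) q measurable_const (hgmeas hZm)
        (fun _ => by rw [abs_zero]; exact hq.le) (hgabs hZ) (fun x => (hg0 hZ x).1) x
      rwa [h0, zero_div] at this
    · have := c3 (fun x => f x (Z x)) (fun _ => q) q (hgmeas hZm) measurable_const
        (hgabs hZ) (fun _ => by rw [abs_of_pos hq]) (fun x => (hg0 hZ x).2) x
      rwa [h1, div_self hq.ne'] at this
  -- the induction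
  have hind : ∀ k, (∀ x, 0 ≤ Zseq κ q f k x ∧ Zseq κ q f k x ≤ 1) ∧ ContDiff ℝ 2 (Zseq κ q f k) ∧
      ∃ B, ∀ x, ‖fderiv ℝ (Zseq κ q f k) x‖ ≤ B := by
    intro k
    induction k with
    | zero =>
      refine ⟨fun x => ⟨zero_le_one, le_rfl⟩, contDiff_const, 0, fun x => ?_⟩
      have : fderiv ℝ (Zseq κ q f 0) x = 0 := by
        change fderiv ℝ (fun _ : ℝ × ℝ => (1 : ℝ)) x = 0
        simp
      rw [this, norm_zero]
    | succ k ih =>
      obtain ⟨i1, i2, i3⟩ := ih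
      have hm : Measurable (Zseq κ q f k) := i2.continuous.measurable
      exact ⟨hbd i1 hm, (hreg i1 (i2.of_le (by norm_num)) i3).1, (hreg1 i1 hm).2⟩
  have hdec : ∀ k x, Zseq κ q f (k + 1) x ≤ Zseq κ q f k x := by
    intro k
    induction k with
    | zero => intro x; exact ((hind 1).1 x).2
    | succ k ih =>
      intro x
      have i1 := (hind k).1
      have i2 := (hind (k + 1)).1
      refine c3 (fun x => f x (Zseq κ q f (k + 1) x)) (fun x => f x (Zseq κ q f k x)) q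
        (hgmeas (hind (k + 1)).2.1.continuous.measurable)
        (hgmeas (hind k).2.1.continuous.measurable) (hgabs i2) (hgabs i1) (fun y => ?_) x
      exact hmono y _ _ (i2 y).1 (ih y) (i1 y).2
  refine ⟨fun k => (hind k).1, hdec, fun k => (hind k).2.1, fun k x => ?_, ?_⟩
  · exact (hreg (hind k).1 ((hind k).2.1.of_le (by norm_num)) (hind k).2.2).2 x
  · -- the limit
    have hanti : ∀ x, Antitone (fun k => Zseq κ q f k x) := fun x => antitone_nat_of_succ_le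
      (fun k => hdec k x)
    have hbb : ∀ x, BddBelow (Set.range (fun k => Zseq κ q f k x)) := fun x =>
      ⟨0, by rintro _ ⟨k, rfl⟩; exact ((hind k).1 x).1⟩
    set Z : ℝ × ℝ → ℝ := fun x => ⨅ k, Zseq κ q f k x with hZdef
    have hlim : ∀ x, Tendsto (fun k => Zseq κ q f k x) atTop (𝓝 (Z x)) := fun x =>
      tendsto_atTop_ciInf (hanti x) (hbb x)
    have hZ01 : ∀ x, 0 ≤ Z x ∧ Z x ≤ 1 := fun x =>
      ⟨ge_of_tendsto' (hlim x) fun k => ((hind k).1 x).1,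
        le_of_tendsto' (hlim x) fun k => ((hind k).1 x).2⟩
    have hZm : Measurable Z := by
      refine measurable_of_tendsto_metrizable (fun k => (hind k).2.1.continuous.measurable) ?_
      rw [tendsto_pi_nhds]
      exact hlim
    have hgl : ∀ x, Tendsto (fun k => f x (Zseq κ q f k x)) atTop (𝓝 (f x (Z x))) := by
      intro x
      have h1 : Tendsto (fun k => (x, Zseq κ q f k x)) atTop (𝓝 (x, Z x)) :=
        tendsto_const_nhds.prodMk_nhds (hlim x)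
      exact (hf.continuous.tendsto (x, Z x)).comp h1
    have hR := c5 (fun k x => f x (Zseq κ q f k x)) (fun x => f x (Z x)) q
      (fun k => hgmeas (hind k).2.1.continuous.measurable) (fun k => hgabs (hind k).1) hgl
    have hZR : Z = Rq κ q (fun x => f x (Z x)) := by
      funext x
      refine tendsto_nhds_unique ?_ (hR x)
      exact (tendsto_add_atTop_iff_nat 1).2 (hlim x)
    have h1 := hreg1 hZ01 hZm
    rw [← hZR] at h1
    have h2 := hreg hZ01 h1.1 h1.2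
    rw [← hZR] at h2
    exact ⟨Z, h2.1, hlim, h2.2⟩

end Pool.Agent.Helper77.PCap
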