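import Pool.Agent.Helper25.PCap.GoalsP
import Pool.Agent.Helper25.PCap.GoalsF

/-! # Packet PUPPER: test functions from a configuration -/

set_option autoImplicit false

open MeasureTheory Set Filter Topology
open scoped ContDiff Real

noncomputable section

namespace Pool.Agent.Helper77.PCap

open Pool.Agent.Helper25.PCap

/-- trapezoid -/
def trap (δ x : ℝ) : ℝ := max 0 (min 1 (min ((x - δ) / δ) ((1 - δ - x) / δ)))

theorem trap_cont (δ : ℝ) : Continuous (trap δ) := by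
  unfold trap
  fun_prop

theorem trap_nonneg (δ x : ℝ) : 0 ≤ trap δ x := le_max_left _ _

theorem trap_le_one (δ x : ℝ) : trap δ x ≤ 1 := max_le zero_le_one (min_le_left _ _)

theorem trap_left {δ x : ℝ} (hδ : 0 < δ) (h : x ≤ δ) : trap δ x = 0 := by
  unfold trap
  apply max_eq_left
  apply (min_le_right _ _).trans
  apply (min_le_left _ _).trans
  exact div_nonpos_of_nonpos_of_nonneg (by linarith) hδ.le

theorem trap_right {δ x : ℝ} (hδ : 0 < δ) (h : 1 - δ ≤ x) : trap δ x = 0 := by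
  unfold trap
  apply max_eq_left
  apply (min_le_right _ _).trans
  apply (min_le_right _ _).trans
  exact div_nonpos_of_nonpos_of_nonneg (by linarith) hδ.le

theorem trap_mid {δ x : ℝ} (hδ : 0 < δ) (h : 2 * δ ≤ x) (h' : x ≤ 1 - 2 * δ) : trap δ x = 1 := by
  unfold trap
  have e1 : (1 : ℝ) ≤ (x - δ) / δ := by rw [le_div_iff₀ hδ]; linarith
  have e2 : (1 : ℝ) ≤ (1 - δ - x) / δ := by rw [le_div_iff₀ hδ]; linarith
  rw [min_eq_left (le_min e1 e2)]
  exact max_eq_right zero_le_one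

theorem exists_cut {κ : ℝ} (hκ : 0 < κ) (hκ1 : κ < 1) {e' : ℝ} (he : 0 < e') :
    ∃ (δ s : ℝ) (g : ℝ → ℝ), 0 < δ ∧ δ < s ∧ s < 1 ∧ Continuous g ∧ (∀ x, 0 ≤ g x) ∧
      (∀ x, x ≤ δ → g x = 0) ∧ (∀ x, s ≤ x → g x = 0) ∧ (∫ x in (0:ℝ)..1, g x) = 1 ∧
      (∫ x in (0:ℝ)..1, g x ^ (1 + κ)) ≤ 1 + e' := by
  set δ : ℝ := e' / (8 * (1 + e')) with hδdef
  have h1e : 0 < 1 + e' := by linarith
  have hδ : 0 < δ := by positivity
  have hδ8 : δ < 1 / 8 := by
    rw [hδdef, div_lt_div_iff₀ (by positivity) (by norm_num)]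
    nlinarith
  have hδe : 1 ≤ (1 + e') * (1 - 4 * δ) := by
    have : (1 + e') * δ = e' / 8 := by
      rw [hδdef]; field_simp
    nlinarith
  set I : ℝ := ∫ x in (0:ℝ)..1, trap δ x with hI
  have hI1 : 1 - 4 * δ ≤ I := by
    have e1 : (∫ x in (2 * δ)..(1 - 2 * δ), trap δ x) ≤ ∫ x in (0:ℝ)..1, trap δ x := by
      apply intervalIntegral.integral_mono_interval (by linarith) (by linarith) (by linarith)
      · exact Eventually.of_forall fun x => trap_nonneg δ x
      · exact (trap_cont δ).intervalIntegrable _ _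
    have e2 : (∫ x in (2 * δ)..(1 - 2 * δ), trap δ x) = 1 - 4 * δ := by
      rw [intervalIntegral.integral_congr (g := fun _ => (1:ℝ))]
      · rw [intervalIntegral.integral_const, smul_eq_mul]; ring
      · intro x hx
        rw [uIcc_of_le (by linarith)] at hx
        exact trap_mid hδ hx.1 hx.2
    linarith
  have hIpos : 0 < I := by linarith
  have hI2 : I ≤ 1 := by
    have e1 : (∫ x in (0:ℝ)..1, trap δ x) ≤ ∫ x in (0:ℝ)..1, (1:ℝ) := by
      apply intervalIntegral.integral_mono_on (by norm_num)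
      · exact (trap_cont δ).intervalIntegrable _ _
      · exact intervalIntegrable_const
      · intro x _; exact trap_le_one δ x
    rw [intervalIntegral.integral_const, smul_eq_mul] at e1
    linarith
  have hg0 : ∀ x, 0 ≤ trap δ x / I := fun x => div_nonneg (trap_nonneg δ x) hIpos.le
  have hgc : Continuous fun x => trap δ x / I := (trap_cont δ).div_const I
  refine ⟨δ, 1 - δ, fun x => trap δ x / I, hδ, by linarith, by linarith, hgc, hg0, ?_, ?_, ?_, ?_⟩
  · intro x hx; simp only [trap_left hδ hx, zero_div]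
  · intro x hx; simp only [trap_right hδ hx, zero_div]
  · rw [intervalIntegral.integral_div, ← hI, div_self hIpos.ne']
  · have hb : ∀ x, (trap δ x / I) ^ (1 + κ) ≤ (trap δ x / I) * (1 + e') := by
      intro x
      rw [Real.rpow_add_of_nonneg (hg0 x) zero_le_one hκ.le, Real.rpow_one]
      apply mul_le_mul_of_nonneg_left _ (hg0 x)
      calc (trap δ x / I) ^ κ ≤ (1 / I) ^ κ := by
            apply Real.rpow_le_rpow (hg0 x) _ hκ.le
            apply div_le_div_of_nonneg_right (trap_le_one δ x) hIpos.le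
        _ ≤ (1 / I) ^ (1 : ℝ) := by
            apply Real.rpow_le_rpow_of_exponent_le _ hκ1.le
            rw [le_div_iff₀ hIpos]; linarith
        _ = 1 / I := Real.rpow_one _
        _ ≤ 1 + e' := by
            rw [div_le_iff₀ hIpos]
            nlinarith
    have hc2 : Continuous fun x => (trap δ x / I) ^ (1 + κ) :=
      hgc.rpow_const fun x => Or.inr (by linarith)
    calc (∫ x in (0:ℝ)..1, (trap δ x / I) ^ (1 + κ))
        ≤ ∫ x in (0:ℝ)..1, (trap δ x / I) * (1 + e') := by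
          apply intervalIntegral.integral_mono_on (by norm_num)
          · exact hc2.intervalIntegrable _ _
          · exact (hgc.mul_const _).intervalIntegrable _ _
          · intro x _; exact hb x
      _ = 1 + e' := by
          rw [intervalIntegral.integral_mul_const, intervalIntegral.integral_div, ← hI,
            div_self hIpos.ne', one_mul]

/-- primitive of a continuous function which vanishes on `x ≤ δ` -/
theorem prim_props {g : ℝ → ℝ} (hg : Continuous g) {δ : ℝ} (hδ : 0 < δ)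
    (h0 : ∀ x, x ≤ δ → g x = 0) :
    ContDiff ℝ 1 (fun x => ∫ t in (0:ℝ)..x, g t) ∧
    (∀ x, deriv (fun x => ∫ t in (0:ℝ)..x, g t) x = g x) ∧
    (∀ x, x ≤ δ → (∫ t in (0:ℝ)..x, g t) = 0) := by
  have hd : ∀ x, HasDerivAt (fun x => ∫ t in (0:ℝ)..x, g t) (g x) x := fun x =>
    intervalIntegral.integral_hasDerivAt_right (hg.intervalIntegrable _ _)
      hg.stronglyMeasurable.stronglyMeasurableAtFilter hg.continuousAt
  have hde : deriv (fun x => ∫ t in (0:ℝ)..x, g t) = g := funext fun x => (hd x).deriv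
  refine ⟨?_, fun x => (hd x).deriv, ?_⟩
  · rw [contDiff_one_iff_deriv]
    refine ⟨fun x => (hd x).differentiableAt, ?_⟩
    rw [hde]; exact hg
  · intro x hx
    rw [intervalIntegral.integral_congr (g := fun _ => (0:ℝ))]
    · simp
    · intro t ht
      apply h0
      rcases le_total 0 x with h | h
      · rw [uIcc_of_le h] at ht; exact ht.2.trans hx
      · rw [uIcc_of_ge h] at ht; exact ht.2.trans hδ.le

theorem fderiv_per (f : ℝ × ℝ → ℝ) (hf : ∀ τ θ, f (τ, θ + 2 * π) = f (τ, θ)) (τ θ : ℝ) :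
    fderiv ℝ f (τ, θ + 2 * π) = fderiv ℝ f (τ, θ) := by
  have h1 : (fun x : ℝ × ℝ => f (x + (0, 2 * π))) = f := by
    ext ⟨a, b⟩; simpa using hf a b
  have h2 := fderiv_comp_add_right (𝕜 := ℝ) (f := f) (x := ((τ, θ) : ℝ × ℝ)) (0, 2 * π)
  rw [h1] at h2
  rw [h2]
  congr 1
  simp

section

variable {κ : ℝ} (C : Config κ)

theorem X_per (τ θ : ℝ) : C.X (τ, θ + 2 * π) = C.X (τ, θ) := by
  unfold Config.X D1 D2
  simp only [fderiv_per C.W C.per, Real.cos_add_two_pi, Real.sin_add_two_pi]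

theorem D1W_per (τ θ : ℝ) : D1 C.W (τ, θ + 2 * π) = D1 C.W (τ, θ) := by
  unfold D1
  rw [fderiv_per C.W C.per]

theorem X_per_int (τ θ : ℝ) (n : ℤ) : C.X (τ, θ + n * (2 * π)) = C.X (τ, θ) := by
  have h : Function.Periodic (fun θ => C.X (τ, θ)) (2 * π) := fun θ => X_per C τ θ
  exact (h.int_mul n) θ

theorem per_int {f : ℝ × ℝ → ℝ} (hf : ∀ τ θ, f (τ, θ + 2 * π) = f (τ, θ)) (τ θ : ℝ) (n : ℤ) :
    f (τ, θ + n * (2 * π)) = f (τ, θ) := by
  have h : Function.Periodic (fun θ => f (τ, θ)) (2 * π) := fun θ => hf τ θ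
  exact (h.int_mul n) θ

theorem T_per_int (θ : ℝ) (n : ℤ) : C.T (θ + n * (2 * π)) = C.T θ := by
  have h : Function.Periodic C.T (2 * π) := fun θ => C.Tper θ
  exact (h.int_mul n) θ

variable (hc : ContDiffOn ℝ ∞ C.u C.V) (hpos : ∀ z : ℝ × ℝ, z.1 ≤ C.T z.2 → 0 < D1 C.u z)

include hc hpos in
theorem u_mono (θ : ℝ) : StrictMonoOn (fun τ => C.u (τ, θ)) (Iic (C.T θ)) := by
  have hd : ∀ τ, τ ≤ C.T θ → HasDerivAt (fun τ => C.u (τ, θ)) (D1 C.u (τ, θ)) τ := by
    intro τ hτ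
    have h1 : DifferentiableAt ℝ C.u (τ, θ) :=
      (hc.contDiffAt (C.Vopen.mem_nhds (C.VT (τ, θ) hτ))).differentiableAt (by simp)
    have h2 : HasDerivAt (fun τ : ℝ => ((τ, θ) : ℝ × ℝ)) ((1, 0) : ℝ × ℝ) τ :=
      (hasDerivAt_id τ).prodMk (hasDerivAt_const τ θ)
    exact h1.hasFDerivAt.comp_hasDerivAt τ h2
  apply strictMonoOn_of_deriv_pos (convex_Iic _)
  · intro τ hτ
    exact (hd τ hτ).continuousAt.continuousWithinAt
  · intro τ hτ
    rw [interior_Iic] at hτ
    rw [(hd τ (le_of_lt hτ)).deriv]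
    exact hpos _ (le_of_lt hτ)

theorem local_phi (hX : ContDiffOn ℝ ∞ C.X C.V) (hu : ContDiffOn ℝ ∞ C.u C.V) {z₀ : ℝ × ℝ}
    (hz₀ : z₀.1 < C.T z₀.2) (hdet : (fderiv ℝ C.X z₀).det ≠ 0) {G : ℝ → ℝ} (hG : ContDiff ℝ 1 G)
    {φ : ℝ × ℝ → ℝ} (hφ : ∀ z : ℝ × ℝ, z.1 < C.T z.2 → φ (C.X z) = G (C.u z)) :
    ContDiffAt ℝ 1 φ (C.X z₀) ∧
      (fderiv ℝ φ (C.X z₀)).comp (fderiv ℝ C.X z₀) = deriv G (C.u z₀) • fderiv ℝ C.u z₀ := by
  have hV : C.V ∈ 𝓝 z₀ := C.Vopen.mem_nhds (C.VT z₀ hz₀.le)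
  have hX1 : ContDiffAt ℝ 1 C.X z₀ := (hX.contDiffAt hV).of_le (by simp)
  have hu1 : ContDiffAt ℝ 1 C.u z₀ := (hu.contDiffAt hV).of_le (by simp)
  have hXd : HasFDerivAt C.X
      (((fderiv ℝ C.X z₀).toContinuousLinearEquivOfDetNeZero hdet : (ℝ × ℝ) ≃L[ℝ] (ℝ × ℝ)) :
        (ℝ × ℝ) →L[ℝ] (ℝ × ℝ)) z₀ := by
    rw [ContinuousLinearMap.coe_toContinuousLinearEquivOfDetNeZero]
    exact (hX1.differentiableAt (by simp)).hasFDerivAt
  have hopen : IsOpen {z : ℝ × ℝ | z.1 < C.T z.2} :=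
    isOpen_lt continuous_fst (C.Tcont.comp continuous_snd)
  set Y := hX1.localInverse hXd (by simp) with hY
  have hYs : ContDiffAt ℝ 1 Y (C.X z₀) := hX1.to_localInverse hXd (by simp)
  have hY0 : Y (C.X z₀) = z₀ := hX1.localInverse_apply_image hXd (by simp)
  have hYr : ∀ᶠ x in 𝓝 (C.X z₀), C.X (Y x) = x :=
    (hX1.hasStrictFDerivAt' hXd (by simp)).eventually_right_inverse
  have hYm : ∀ᶠ x in 𝓝 (C.X z₀), Y x ∈ {z : ℝ × ℝ | z.1 < C.T z.2} := by
    have : Tendsto Y (𝓝 (C.X z₀)) (𝓝 z₀) := by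
      have := hYs.continuousAt
      rw [ContinuousAt, hY0] at this
      exact this
    exact this (hopen.mem_nhds hz₀)
  have hEq : φ =ᶠ[𝓝 (C.X z₀)] fun x => G (C.u (Y x)) := by
    filter_upwards [hYr, hYm] with x h1 h2
    conv_lhs => rw [← h1]
    exact hφ _ h2
  have hφc : ContDiffAt ℝ 1 φ (C.X z₀) := by
    refine ContDiffAt.congr_of_eventuallyEq ?_ hEq
    have hu1' : ContDiffAt ℝ 1 C.u (Y (C.X z₀)) := by rw [hY0]; exact hu1
    exact (hG.contDiffAt).comp _ (hu1'.comp _ hYs)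
  refine ⟨hφc, ?_⟩
  have e1 : HasFDerivAt (fun z => φ (C.X z)) ((fderiv ℝ φ (C.X z₀)).comp (fderiv ℝ C.X z₀)) z₀ :=
    (hφc.differentiableAt (by simp)).hasFDerivAt.comp z₀
      (hX1.differentiableAt (by simp)).hasFDerivAt
  have e2 : HasFDerivAt (fun z => G (C.u z)) (deriv G (C.u z₀) • fderiv ℝ C.u z₀) z₀ :=
    ((hG.differentiable (by simp)) (C.u z₀)).hasDerivAt.comp_hasFDerivAt z₀
      (hu1.differentiableAt (by simp)).hasFDerivAt
  have e3 : (fun z => φ (C.X z)) =ᶠ[𝓝 z₀] fun z => G (C.u z) := by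
    filter_upwards [hopen.mem_nhds hz₀] with z hz using hφ z hz
  exact e1.unique (e2.congr_of_eventuallyEq e3)


/-- the linear system for the gradient -/
theorem grad_solve {A B G E τ ut uθ c s κ : ℝ} (hE : E * Real.exp (-τ) = 1) (hcs : c ^ 2 + s ^ 2 = 1)
    (hQ : ut ^ 2 / κ + uθ ^ 2 ≠ 0)
    (h1 : A * (-(Real.exp (-τ) * (ut * c - uθ * s))) + B * (-(Real.exp (-τ) * (ut * s + uθ * c)))
      = G * ut)
    (h2 : A * (Real.exp (-τ) * (-(uθ * c) - ut / κ * s)) +
      B * (Real.exp (-τ) * (-(uθ * s) + ut / κ * c)) = G * uθ) :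
    A = -(G * E * c) ∧ B = -(G * E * s) := by
  have hne : Real.exp (-τ) ≠ 0 := (Real.exp_pos _).ne'
  set x := Real.exp (-τ) with hx
  set a := A + G * E * c with ha
  set b := B + G * E * s with hb
  set p1 := ut * c - uθ * s with hp1
  set p2 := ut * s + uθ * c with hp2
  set q1 := -(uθ * c) - ut / κ * s with hq1
  set q2 := -(uθ * s) + ut / κ * c with hq2
  have k1 : a * p1 + b * p2 = 0 := by
    have : x * (a * p1 + b * p2) = 0 := by
      have e1 : x * (a * p1 + b * p2) = -(A * (-(x * p1)) + B * (-(x * p2))) +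
          G * (E * x) * (c * p1 + s * p2) := by
        rw [ha, hb]; ring
      have e2 : c * p1 + s * p2 = ut * (c ^ 2 + s ^ 2) := by rw [hp1, hp2]; ring
      rw [e1, h1, e2, hE, hcs]; ring
    exact (mul_eq_zero.mp this).resolve_left hne
  have k2 : a * q1 + b * q2 = 0 := by
    have : x * (a * q1 + b * q2) = 0 := by
      have e1 : x * (a * q1 + b * q2) = (A * (x * q1) + B * (x * q2)) +
          G * (E * x) * (c * q1 + s * q2) := by
        rw [ha, hb]; ring
      have e2 : c * q1 + s * q2 = -uθ * (c ^ 2 + s ^ 2) := by rw [hq1, hq2]; ring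
      rw [e1, h2, e2, hE, hcs]; ring
    exact (mul_eq_zero.mp this).resolve_left hne
  have hdet : p1 * q2 - p2 * q1 = ut ^ 2 / κ + uθ ^ 2 := by
    have : p1 * q2 - p2 * q1 = (ut ^ 2 / κ + uθ ^ 2) * (c ^ 2 + s ^ 2) := by
      rw [hp1, hp2, hq1, hq2]; ring
    rw [this, hcs, mul_one]
  have ka : a * (ut ^ 2 / κ + uθ ^ 2) = 0 := by
    rw [← hdet]
    linear_combination q2 * k1 - p2 * k2
  have kb : b * (ut ^ 2 / κ + uθ ^ 2) = 0 := by
    rw [← hdet]
    linear_combination p1 * k2 - q1 * k1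
  have a0 := (mul_eq_zero.mp ka).resolve_right hQ
  have b0 := (mul_eq_zero.mp kb).resolve_right hQ
  constructor <;> linarith

end

section
variable {κ : ℝ} (C : Config κ)

/-- the inner region `O2` -/
def O2 (s : ℝ) : Set (ℝ × ℝ) := {x | ∀ θ, dn x θ < C.Hs s θ}

theorem dn_cont : Continuous fun p : (ℝ × ℝ) × ℝ => dn p.1 p.2 := by
  unfold dn
  fun_prop

theorem dn_per (x : ℝ × ℝ) (θ : ℝ) : dn x (θ + 2 * π) = dn x θ := by
  unfold dn
  rw [Real.cos_add_two_pi, Real.sin_add_two_pi]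

theorem O2_open {s : ℝ} (hHc : Continuous (C.Hs s)) (hHp : ∀ θ, C.Hs s (θ + 2 * π) = C.Hs s θ) :
    IsOpen (O2 C s) := by
  rw [isOpen_iff_mem_nhds]
  intro x hx
  have key : ∀ᶠ y in 𝓝 x, ∀ θ ∈ Icc (0:ℝ) (2 * π), dn y θ < C.Hs s θ := by
    apply IsCompact.eventually_forall_of_forall_eventually isCompact_Icc
    intro θ _
    exact (dn_cont.continuousAt (x := (x, θ))).eventually_lt
      ((hHc.comp continuous_snd).continuousAt (x := (x, θ))) (hx θ)
  filter_upwards [key] with y hy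
  intro θ
  have hper : Function.Periodic (fun θ => C.Hs s θ - dn y θ) (2 * π) := fun θ => by
    simp only [hHp, dn_per]
  obtain ⟨θ', hθ', heq⟩ := hper.exists_mem_Ico₀ Real.two_pi_pos θ
  have h1 := hy θ' ⟨hθ'.1, hθ'.2.le⟩
  linarith

theorem dn_comb (x y : ℝ × ℝ) (a b θ : ℝ) : dn (a • x + b • y) θ = a * dn x θ + b * dn y θ := by
  unfold dn
  simp only [Prod.fst_add, Prod.snd_add, Prod.smul_fst, Prod.smul_snd, smul_eq_mul]
  ring

theorem K_compact (H : ℝ → ℝ) : IsCompact {x : ℝ × ℝ | ∀ θ, dn x θ ≤ H θ} := by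
  have hcl : IsClosed {x : ℝ × ℝ | ∀ θ, dn x θ ≤ H θ} := by
    rw [Set.ofPred_forall]
    apply isClosed_iInter
    intro θ
    apply isClosed_le _ continuous_const
    unfold dn
    fun_prop
  have hsub : {x : ℝ × ℝ | ∀ θ, dn x θ ≤ H θ} ⊆
      Icc (-H π) (H 0) ×ˢ Icc (-H (-(π / 2))) (H (π / 2)) := by
    intro x hx
    have h1 := hx 0
    have h2 := hx π
    have h3 := hx (π / 2)
    have h4 := hx (-(π / 2))
    unfold dn at h1 h2 h3 h4
    simp only [Real.cos_zero, Real.sin_zero, Real.cos_pi, Real.sin_pi, Real.cos_pi_div_two,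
      Real.sin_pi_div_two, Real.cos_neg, Real.sin_neg] at h1 h2 h3 h4
    refine ⟨⟨by linarith, by linarith⟩, ⟨by linarith, by linarith⟩⟩
  exact (isCompact_Icc.prod isCompact_Icc).of_isClosed_subset hcl hsub

open Classical in
/-- the test function -/
def phi (G : ℝ → ℝ) (x : ℝ × ℝ) : ℝ :=
  if h : ∃ z : ℝ × ℝ, z.1 < C.T z.2 ∧ C.X z = x then G (C.u h.choose) else 1

end

theorem pkPUpper (hc : GCU0) (he : GCE) (h1c : GCU1) (h1 : GP1) (h2 : GP2) (h3 : GP3) (h4 : GP4)
    (h5 : GP5) (h6 : GP6) (h9 : GP9) (h10 : GP10a) : PUpper := by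
  clear he
  intro κ hκ hκ1 C a b ha hb e hepos
  obtain ⟨hus, -, -, -, -, -, huper, huT, hupos⟩ := hc κ hκ hκ1 C
  obtain ⟨hu0, hu1, -⟩ := h1c κ hκ hκ1 C
  obtain ⟨hXs, hXd⟩ := h1 κ hκ hκ1 C
  obtain ⟨hlev1, hlev2, hlevT, hlevm, hlevp, -, -, -⟩ := h2 κ hκ hκ1 C
  obtain ⟨hHs1, -, hdnX, hHsd, -, -⟩ := h3 κ hκ hκ1 C
  obtain ⟨hHm, -, -, -⟩ := h4 κ hκ hκ1 C
  have h5' := h5 κ hκ hκ1 C
  have h6' := h6 κ hκ hκ1 C
  obtain ⟨-, -, -, -, h9'⟩ := h9 κ hκ hκ1 C
  have h10' := h10 κ hκ hκ1 C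
  have hcap : 0 < C.cap := by
    unfold Config.cap
    have := C.C0pos
    have : 0 < 1 - κ := by linarith
    positivity
  obtain ⟨δ, s, g, hδ, hδs, hs1, hgc, hg0, hgδ, hgs, hgI, hgp⟩ :=
    exists_cut hκ hκ1 (e' := e / C.cap) (by positivity)
  have hs0 : 0 < s := hδ.trans hδs
  set G : ℝ → ℝ := fun x => ∫ t in (0:ℝ)..x, g t with hGdef
  obtain ⟨hGc, hGd, hGδ⟩ := prim_props hgc hδ hgδ
  have hG1 : ∀ x, s ≤ x → G x = 1 := by
    intro x hx
    have e1 : (∫ t in (0:ℝ)..1, g t) = (∫ t in (0:ℝ)..s, g t) + ∫ t in s..1, g t :=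
      (intervalIntegral.integral_add_adjacent_intervals (hgc.intervalIntegrable _ _)
        (hgc.intervalIntegrable _ _)).symm
    have e2 : (∫ t in (0:ℝ)..x, g t) = (∫ t in (0:ℝ)..s, g t) + ∫ t in s..x, g t :=
      (intervalIntegral.integral_add_adjacent_intervals (hgc.intervalIntegrable _ _)
        (hgc.intervalIntegrable _ _)).symm
    have e3 : ∀ y, s ≤ y → (∫ t in s..y, g t) = 0 := by
      intro y hy
      rw [intervalIntegral.integral_congr (g := fun _ => (0:ℝ))]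
      · simp
      · intro t ht
        rw [uIcc_of_le hy] at ht
        exact hgs t ht.1
    rw [e3 1 hs1.le] at e1
    rw [e3 x hx] at e2
    simp only [hGdef]
    rw [e2, ← e1, hgI]
  -- Hs s is continuous and periodic
  have hHc : Continuous (C.Hs s) := by
    rw [continuous_iff_continuousAt]
    intro θ
    exact (hHsd s θ hs0 hs1.le).continuousAt
  have hHp : ∀ θ, C.Hs s (θ + 2 * π) = C.Hs s θ := by
    intro θ
    unfold Config.Hs
    rw [hlevp, D1W_per]
  have hO2 : IsOpen (O2 C s) := O2_open C hHc hHp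
  have hHle : ∀ t t' θ, 0 < t → t ≤ t' → t' ≤ 1 → C.Hs t' θ ≤ C.Hs t θ := by
    intro t t' θ h h' h''
    rcases h'.eq_or_lt with h' | h'
    · rw [h']
    · exact (hHm t t' θ h h' h'').le
  -- the test function
  set φ := phi C G with hφdef
  have hφ1 : ∀ z : ℝ × ℝ, z.1 < C.T z.2 → φ (C.X z) = G (C.u z) := by
    intro z hz
    have hex : ∃ z' : ℝ × ℝ, z'.1 < C.T z'.2 ∧ C.X z' = C.X z := ⟨z, hz, rfl⟩
    have hch := hex.choose_spec
    have e1 : φ (C.X z) = G (C.u hex.choose) := by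
      rw [hφdef]; unfold phi; rw [dif_pos hex]
    rw [e1]
    obtain ⟨e2, n, e3⟩ := h5' hex.choose z hch.1.le hz.le hch.2
    have e4 : C.u hex.choose = C.u z := by
      have : hex.choose = (z.1, z.2 + n * (2 * π)) := Prod.ext e2 e3
      rw [this, per_int huper]
    rw [e4]
  have hφ2 : ∀ x ∈ O2 C s, φ x = 1 := by
    intro x hx
    by_cases hex : ∃ z : ℝ × ℝ, z.1 < C.T z.2 ∧ C.X z = x
    · obtain ⟨z, hz, rfl⟩ := hex
      rw [hφ1 z hz]
      apply hG1
      by_contra hlt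
      push Not at hlt
      have e1 := hx z.2
      have e2 : dn (C.X z) z.2 = C.Hs (C.u z) z.2 := by
        have := hdnX (C.u z) z.2
        rw [hlev2 z hz.le] at this
        exact this
      rw [e2] at e1
      have e3 := hHle (C.u z) s z.2 (hu0 z hz.le) hlt.le hs1.le
      linarith
    · rw [hφdef]; unfold phi; rw [dif_neg hex]
  have hcover : ∀ x : ℝ × ℝ, x ∈ O2 C s ∨ ∃ z : ℝ × ℝ, z.1 < C.T z.2 ∧ C.X z = x := by
    intro x
    by_cases hx : ∃ θ, C.Hs 1 θ < dn x θ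
    · right
      obtain ⟨z, hz, hz'⟩ := (h6' 1 x one_pos le_rfl).mp hx
      rw [hlevT] at hz
      exact ⟨z, hz, hz'⟩
    · left
      push Not at hx
      intro θ
      exact (hx θ).trans_lt (hHm s 1 θ hs0 hs1 le_rfl)
  have hφO : ∀ x ∈ O2 C s, φ =ᶠ[𝓝 x] fun _ => (1:ℝ) := by
    intro x hx
    filter_upwards [hO2.mem_nhds hx] with y hy using hφ2 y hy
  have hQ : ∀ z : ℝ × ℝ, z.1 ≤ C.T z.2 → 0 < C.Q z := by
    intro z hz
    have := hupos z hz
    unfold Config.Q
    positivity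
  have hloc : ∀ z : ℝ × ℝ, z.1 < C.T z.2 → ContDiffAt ℝ 1 φ (C.X z) ∧
      (D1 φ (C.X z)) ^ 2 + (D2 φ (C.X z)) ^ 2 = (g (C.u z) * Real.exp z.1) ^ 2 := by
    intro z hz
    obtain ⟨hd1, hd2, hdet⟩ := hXd z (C.VT z hz.le)
    have hdet0 : (fderiv ℝ C.X z).det ≠ 0 := by
      rw [hdet]
      have := hQ z hz.le
      have := Real.exp_pos (-(2 * z.1))
      have : 0 < Real.exp (-(2 * z.1)) * C.Q z := by positivity
      linarith
    obtain ⟨k1, k2⟩ := local_phi C hXs hus hz hdet0 hGc hφ1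
    refine ⟨k1, ?_⟩
    have m : ∀ w : ℝ × ℝ, fderiv ℝ φ (C.X z) w = w.1 * D1 φ (C.X z) + w.2 * D2 φ (C.X z) := by
      intro w
      have hw : w = w.1 • ((1, 0) : ℝ × ℝ) + w.2 • ((0, 1) : ℝ × ℝ) := by
        ext <;> simp
      conv_lhs => rw [hw]
      rw [map_add, map_smul, map_smul, smul_eq_mul, smul_eq_mul]
      rfl
    have f1 := congrArg (fun L : (ℝ × ℝ) →L[ℝ] ℝ => L (1, 0)) k2
    have f2 := congrArg (fun L : (ℝ × ℝ) →L[ℝ] ℝ => L (0, 1)) k2
    simp only [ContinuousLinearMap.comp_apply, hd1, hd2, m] at f1 f2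
    have g1 : deriv G (C.u z) = g (C.u z) := hGd _
    have f1' : (-(Real.exp (-z.1) * (D1 C.u z * Real.cos z.2 - D2 C.u z * Real.sin z.2))) *
        D1 φ (C.X z) + (-(Real.exp (-z.1) * (D1 C.u z * Real.sin z.2 + D2 C.u z * Real.cos z.2))) *
        D2 φ (C.X z) = g (C.u z) * D1 C.u z := by
      rw [← g1]; exact f1
    have f2' : (Real.exp (-z.1) * (-(D2 C.u z * Real.cos z.2) - D1 C.u z / κ * Real.sin z.2)) *
        D1 φ (C.X z) +
        (Real.exp (-z.1) * (-(D2 C.u z * Real.sin z.2) + D1 C.u z / κ * Real.cos z.2)) *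
        D2 φ (C.X z) = g (C.u z) * D2 C.u z := by
      rw [← g1]; exact f2
    have hE : Real.exp z.1 * Real.exp (-z.1) = 1 := by
      rw [← Real.exp_add, add_neg_cancel, Real.exp_zero]
    have hcs : Real.cos z.2 ^ 2 + Real.sin z.2 ^ 2 = 1 := Real.cos_sq_add_sin_sq _
    obtain ⟨r1, r2⟩ := grad_solve (κ := κ) (A := D1 φ (C.X z)) (B := D2 φ (C.X z))
      (G := g (C.u z)) hE hcs (hQ z hz.le).ne' (by linarith [f1']) (by linarith [f2'])
    rw [r1, r2]
    linear_combination (g (C.u z) * Real.exp z.1) ^ 2 * hcs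
  have hφC : ContDiff ℝ 1 φ := by
    rw [contDiff_iff_contDiffAt]
    intro x
    rcases hcover x with hx | ⟨z, hz, rfl⟩
    · exact contDiffAt_const.congr_of_eventuallyEq (hφO x hx)
    · exact (hloc z hz).1
  have hgrad0 : ∀ x ∈ O2 C s, (D1 φ x) ^ 2 + (D2 φ x) ^ 2 = 0 := by
    intro x hx
    have : fderiv ℝ φ x = 0 := by
      rw [(hφO x hx).fderiv_eq, fderiv_const_apply]
    unfold D1 D2
    rw [this]
    simp
  refine ⟨φ, hφC, ?_, ⟨O2 C s, hO2, ?_, fun x hx => (hφ2 x hx).ge⟩, ?_⟩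
  · -- compact support
    apply HasCompactSupport.intro (K_compact (C.Hs δ))
    intro x hx
    simp only [mem_ofPred_eq, not_forall, not_le] at hx
    obtain ⟨z, hz, hz'⟩ := (h6' δ x hδ (hδs.trans hs1).le).mp hx
    obtain ⟨l1, l2⟩ := hlev1 δ z.2 hδ (hδs.trans hs1).le
    rw [← hz', hφ1 z (hz.trans_le l1)]
    apply hGδ
    have := u_mono C hus hupos z.2 (show z.1 ∈ Iic (C.T z.2) from (hz.trans_le l1).le)
      (show C.lev δ z.2 ∈ Iic (C.T z.2) from l1) hz
    simp only at this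
    rw [l2] at this
    exact this.le
  · -- the segment
    intro x hx θ
    obtain ⟨α, β, hα, hβ, hαβ, rfl⟩ := hx
    rw [dn_comb]
    have e1 := ha θ
    have e2 := hb θ
    rw [← hHs1] at e1 e2
    have e3 := hHm s 1 θ hs0 hs1 le_rfl
    calc α * dn a θ + β * dn b θ ≤ α * C.Hs 1 θ + β * C.Hs 1 θ := by gcongr
      _ = C.Hs 1 θ := by rw [← add_mul, hαβ, one_mul]
      _ < C.Hs s θ := e3
  · -- energy
    set Γ : ℝ → ℝ := fun x => ∫ t in (0:ℝ)..x, g t ^ (1 + κ) with hΓdef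
    have hgpc : Continuous fun t => g t ^ (1 + κ) :=
      hgc.rpow_const fun x => Or.inr (by linarith)
    have hgp0 : ∀ x, x ≤ δ → g x ^ (1 + κ) = 0 := by
      intro x hx
      rw [hgδ x hx, Real.zero_rpow (by linarith)]
    obtain ⟨hΓc, hΓd, hΓδ⟩ := prim_props hgpc hδ hgp0
    obtain ⟨M, hM1, hM2, hM3⟩ := h9' Γ δ hΓc hδ hΓδ
    have hM4 := hM3 M le_rfl
    set h : ℝ × ℝ → ℝ := fun x => ((D1 φ x) ^ 2 + (D2 φ x) ^ 2) ^ ((1 + κ) / 2) with hhdef
    have hfc : Continuous (fderiv ℝ φ) := hφC.continuous_fderiv (by simp)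
    have hD1c : Continuous (D1 φ) := by
      unfold D1; exact hfc.clm_apply continuous_const
    have hD2c : Continuous (D2 φ) := by
      unfold D2; exact hfc.clm_apply continuous_const
    have hhc : Continuous h := by
      apply Continuous.rpow_const
      · exact (hD1c.pow 2).add (hD2c.pow 2)
      · intro x; right; linarith
    -- reduction to the region
    have hzero : ∀ x, x ∉ C.X '' (C.R M) → h x = 0 := by
      intro x hx
      have hz0 : (D1 φ x) ^ 2 + (D2 φ x) ^ 2 = 0 := by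
        rcases hcover x with hx' | ⟨z, hz, rfl⟩
        · exact hgrad0 x hx'
        · rw [(hloc z hz).2]
          by_contra hne
          apply hx
          have hgne : g (C.u z) ≠ 0 := by
            intro h0
            apply hne
            rw [h0]; ring
          have hzM : -M < z.1 := by
            by_contra hle
            push Not at hle
            exact hgne (hgδ _ (hM2 z hle).le)
          obtain ⟨θ', hθ', n, hn⟩ : ∃ θ' ∈ Ico (0:ℝ) (2 * π), ∃ n : ℤ, θ' = z.2 + n * (2 * π) := by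
            refine ⟨toIcoMod Real.two_pi_pos 0 z.2, ?_, -toIcoDiv Real.two_pi_pos 0 z.2, ?_⟩
            · simpa using toIcoMod_mem_Ico Real.two_pi_pos 0 z.2
            · rw [toIcoMod]
              push_cast
              rw [zsmul_eq_mul]
              ring
          refine ⟨(z.1, θ'), ⟨hzM, ?_, hθ'.1, hθ'.2⟩, ?_⟩
          · show z.1 < C.T θ'
            rw [hn, T_per_int]
            exact hz
          · rw [hn, X_per_int]
      rw [hhdef]
      simp only [hz0]
      exact Real.zero_rpow (by linarith)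
    have hE1 : En (1 + κ) φ = ∫ x in C.X '' (C.R M), h x := by
      unfold En
      exact (setIntegral_eq_integral_of_forall_compl_eq_zero hzero).symm
    have hval : ∀ z : ℝ × ℝ, z.1 ≤ C.T z.2 →
        h (C.X z) = g (C.u z) ^ (1 + κ) * Real.exp ((1 + κ) * z.1) := by
      intro z hz
      have hsq : (D1 φ (C.X z)) ^ 2 + (D2 φ (C.X z)) ^ 2 = (g (C.u z) * Real.exp z.1) ^ 2 := by
        rcases hz.eq_or_lt with hz' | hz'
        · have hzz : z = (C.T z.2, z.2) := Prod.ext hz' rfl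
          have e1 : C.X z ∈ O2 C s := by
            rcases hcover (C.X z) with h' | ⟨w, hw, hw'⟩
            · exact h'
            · exfalso
              obtain ⟨j1, n, j2⟩ := h5' w z hw.le hz hw'
              rw [j1, j2, T_per_int, ← hz'] at hw
              exact lt_irrefl _ hw
          rw [hgrad0 _ e1]
          have e2 : g (C.u z) = 0 := by
            apply hgs
            rw [hzz, huT]
            exact hs1.le
          rw [e2]; ring
        · exact (hloc z hz').2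
      rw [hhdef]
      simp only
      rw [hsq, ← Real.rpow_natCast, ← Real.rpow_mul (mul_nonneg (hg0 _) (Real.exp_pos _).le)]
      have e1 : ((2:ℕ):ℝ) * ((1 + κ) / 2) = 1 + κ := by push_cast; ring
      rw [e1, Real.mul_rpow (hg0 _) (Real.exp_pos _).le, ← Real.exp_mul]
      congr 2
      ring
    rw [hE1, h10' M h hhc]
    have hE2 : (∫ θ in (0 : ℝ)..(2 * π), ∫ τ in (-M)..(max (-M) (C.T θ)),
        Real.exp (-(2 * τ)) * C.Q (τ, θ) * h (C.X (τ, θ))) =
        ∫ θ in (0 : ℝ)..(2 * π), ∫ τ in (-M)..(C.T θ), Real.exp (-((1 - κ) * τ)) *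
          (deriv Γ (C.u (τ, θ)) * C.Q (τ, θ)) := by
      apply intervalIntegral.integral_congr
      intro θ _
      simp only
      rw [max_eq_right (hM1 θ)]
      apply intervalIntegral.integral_congr
      intro τ hτ
      rw [uIcc_of_le (hM1 θ)] at hτ
      simp only
      rw [hval (τ, θ) hτ.2, hΓd]
      have e1 : Real.exp (-((1 - κ) * τ)) = Real.exp (-(2 * τ)) * Real.exp ((1 + κ) * τ) := by
        rw [← Real.exp_add]; congr 1; ring
      rw [e1]
      ring
    rw [hE2, hM4]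
    calc C.cap * Γ 1 ≤ C.cap * (1 + e / C.cap) := by
          apply mul_le_mul_of_nonneg_left _ hcap.le
          exact hgp
      _ = C.cap + e := by field_simp

end Pool.Agent.Helper77.PCap
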